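import Mathlib
import Pool.Agent.V11275.Quad8

namespace Pool.Agent.Results.MP_79dd7e_co.TooMany

open MeasureTheory Set

/-- The Euclidean plane. -/
abbrev Plane := EuclideanSpace ℝ (Fin 2)

/-- Rotation of a vector by a right angle. -/
noncomputable def rot (u : Plane) : Plane := !₂[-u 1, u 0]

/-- The line through `P` with direction `u`. -/
def line (P u : Plane) : Set Plane := {x | ∃ s : ℝ, x = P + s • u}

/-- The closed quadrant with apex `P` spanned by the perpendicular vectors `u` and `rot u`. -/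
def quad (P u : Plane) : Set Plane := {x | ∃ a b : ℝ, 0 ≤ a ∧ 0 ≤ b ∧ x = P + a • u + b • rot u}

/-- `q` is a quadrisection of `R`: an unordered pair of perpendicular lines meeting at an interior
point `P` of `R`, such that each of the four closed quadrants they bound (they are
`quad P u`, `quad P (rot u)`, `quad P (rot (rot u))`, `quad P (rot (rot (rot u)))`) meets `R` in
area `|R| / 4`. -/
def IsQuadrisection (R : Set Plane) (q : Set (Set Plane)) : Prop :=
  ∃ P u : Plane, P ∈ interior R ∧ u ≠ 0 ∧ q = {line P u, line P (rot u)} ∧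
    ∀ k : ℕ, volume (R ∩ quad P (rot^[k] u)) = volume R / 4

/-- `R` is a convex `m`-gon: the convex hull of finitely many points, with exactly `m` vertices
(extreme points) and nonempty interior. -/
def IsGon (m : ℕ) (R : Set Plane) : Prop :=
  (∃ V : Set Plane, V.Finite ∧ R = convexHull ℝ V) ∧ (R.extremePoints ℝ).ncard = m ∧
    (interior R).Nonempty

/-- The number `q(R)` of quadrisections of `R`, possibly infinite. -/
noncomputable def numQuad (R : Set Plane) : ℕ∞ := {q | IsQuadrisection R q}.encard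

/-- Q1 is false for every `n ≥ 2`: some convex `(2n+1)`-gon has more than `2n+1` quadrisections.
For every `n ≥ 4` some convex `(2n+1)`-gon has infinitely many quadrisections. -/
theorem result :
    (∀ n : ℕ, 2 ≤ n → ∃ R : Set Plane, IsGon (2 * n + 1) R ∧ ((2 * n + 1 : ℕ) : ℕ∞) < numQuad R) ∧
    (∀ n : ℕ, 4 ≤ n → ∃ R : Set Plane, IsGon (2 * n + 1) R ∧ numQuad R = ⊤) := by
  have big : ∀ n : ℕ, 4 ≤ n → ∃ R : Set Plane, IsGon (2 * n + 1) R ∧ numQuad R = ⊤ := by
    intro n hn
    obtain ⟨R, h1, h2⟩ := Pool.V11275.Quad.infinite_case (N := 2 * n - 6) (by omega)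
    have e : 2 * n - 6 + 7 = 2 * n + 1 := by omega
    rw [e] at h1
    exact ⟨R, h1, encard_eq_top h2⟩
  refine ⟨?_, big⟩
  intro n hn
  rcases Nat.lt_or_ge n 4 with h | h
  · interval_cases n
    · obtain ⟨h1, h2⟩ := Pool.V11275.Quad.cert_sound Pool.V11275.Quad.pen_cert
      refine ⟨_, h1, lt_of_lt_of_le ?_ h2⟩
      norm_num
    · obtain ⟨h1, h2⟩ := Pool.V11275.Quad.cert_sound Pool.V11275.Quad.hep_cert
      refine ⟨_, h1, lt_of_lt_of_le ?_ h2⟩
      norm_num
  · obtain ⟨R, h1, h2⟩ := big n h
    refine ⟨R, h1, ?_⟩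
    rw [h2]
    exact ENat.natCast_lt_top _

end Pool.Agent.Results.MP_79dd7e_co.TooMany
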